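import Pool.Agent.WAP.StmtsM

set_option autoImplicit false

/-!
# WAP, row LVB: levels and `Big`
-/

namespace Pool.Agent.WAP.H77

open Pool.Agent.WAP
open Classical Polynomial WeierstrassCurve.Affine

/-- **LVB** -/
theorem lvb (zeq : ZeqStmt) : LvbStmt := by
  intro F _ _ ϖ hloc d hd
  have hd0 : 0 < ‖d‖ := norm_pos_iff.2 hd
  refine ⟨fun N => ?_, fun ρ hρ => ?_⟩
  · have hN : 0 < ‖d‖ * (|N| + 1) := by positivity
    refine ⟨Real.sqrt (1 / (‖d‖ * (|N| + 1))), Real.sqrt_pos.2 (by positivity), ?_⟩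
    rintro (_ | ⟨X, Y, h⟩) ⟨hB, hz⟩
    · exact Or.inl rfl
    · rcases hB with hB | hB
      · exact Or.inl hB
      · right
        change 1 < ‖X / d‖ at hB
        change N < ‖X / d‖
        change ‖X / Y‖ ≤ _ at hz
        rw [norm_div, lt_div_iff₀ hd0] at hB
        obtain ⟨-, e, -⟩ := zeq F ϖ hloc d X Y hd h (by linarith)
        have hX : 0 < ‖X‖ := by linarith
        have h1 : ‖X / Y‖ ^ 2 ≤ 1 / (‖d‖ * (|N| + 1)) := by
          have := pow_le_pow_left₀ (norm_nonneg _) hz 2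
          rwa [Real.sq_sqrt (by positivity)] at this
        have h2 : 1 ≤ ‖X‖ * (1 / (‖d‖ * (|N| + 1))) := by
          exact e.symm.le.trans (mul_le_mul_of_nonneg_left h1 hX.le)
        rw [mul_one_div, le_div_iff₀ hN] at h2
        rw [norm_div, lt_div_iff₀ hd0]
        have h3 := le_abs_self N
        nlinarith
  · refine ⟨max 1 (1 / (‖d‖ * ρ ^ 2)), ?_⟩
    rintro (_ | ⟨X, Y, h⟩) hB
    · refine ⟨Or.inl rfl, ?_⟩
      change ‖(0 : F) / 0‖ ≤ ρ
      simpa using hρ.le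
    · rcases hB with hB | hB
      · exact absurd hB (by intro h0; cases h0)
      · change _ < ‖X / d‖ at hB
        have hB1 : 1 < ‖X / d‖ := lt_of_le_of_lt (le_max_left _ _) hB
        have hB2 : 1 / (‖d‖ * ρ ^ 2) < ‖X / d‖ := lt_of_le_of_lt (le_max_right _ _) hB
        refine ⟨Or.inr hB1, ?_⟩
        change ‖X / Y‖ ≤ ρ
        rw [norm_div, lt_div_iff₀ hd0] at hB1 hB2
        obtain ⟨-, e, -⟩ := zeq F ϖ hloc d X Y hd h (by linarith)
        have hX : 0 < ‖X‖ := by linarith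
        have h1 : 1 / (‖d‖ * ρ ^ 2) * ‖d‖ = 1 / ρ ^ 2 := by
          field_simp
        rw [h1, div_lt_iff₀ (by positivity)] at hB2
        refine le_of_lt (lt_of_pow_lt_pow_left₀ 2 hρ.le ?_)
        rw [← e] at hB2
        exact lt_of_mul_lt_mul_left hB2 hX.le

end Pool.Agent.WAP.H77
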